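import Pool.Agent.Helper3.NFR.Defs

/-!
# Beck-Fiala: assembly from Theorem W. Definitions

Everything (`fn, ph, ps, dn, wt, ZZ, Happy, sw, TT, EE, c0, Ga`) is from `Helper3.NFR`; only the
inverse tolerances of the rows are new: real labels which look at the future levels only.
-/

namespace Pool.Agent.Helper8.NW

open Finset
open scoped Classical

noncomputable section

/-- clamp to `[0,1]` -/
def cp (x : ℝ) : ℝ := max 0 (min x 1)

/-- label of a decreasing sequence `n` at level `i` (levels below `N`) -/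
def lab (A J0 t N : ℕ) (n : ℕ → ℕ) (i : ℕ) : ℝ :=
  ∑ l ∈ range N, if i + J0 ≤ l then cp ((n l : ℝ) * ((l - i : ℕ) : ℝ) ^ A / (t : ℝ) - 1) else 0

variable {V R : Type} [Fintype V] [Fintype R]

/-- number of elements of rank at least `i` in the row `S` -/
def nl (a : V → Finset R) (k : V → ℕ) (S : R) (i : ℕ) : ℕ :=
  #(univ.filter (fun v => S ∈ a v ∧ i ≤ k v))

/-- inverse tolerance of the row `S` at level `i` -/
def lamW (a : V → Finset R) (l0 : ℝ) (A J0 t : ℕ) (k : V → ℕ) (i : ℕ) (S : R) : ℝ :=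
  l0 * (2 : ℝ) ^ (-(lab A J0 t (univ.sup k + 1) (nl a k S) i))

/-- number of elements of the row `S` in `E ∪ T` -/
def ns (a : V → Finset R) (T E : Finset V) (S : R) : ℝ :=
  (#((E ∪ T).filter (fun v => S ∈ a v)) : ℝ)

end

end Pool.Agent.Helper8.NW
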