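import Pool.Agent.Helper8.NW.Defs
import Pool.Agent.Helper8.ZW.Stmts
import Pool.Agent.Helper3.NFR.Stmts

/-!
# Beck-Fiala: assembly from Theorem W. Statements
-/

namespace Pool.Agent.Helper8.NW

open Finset Pool.Agent.Helper3.NFR
open scoped Classical

noncomputable section

/-- 1. the sum of the tolerances of one row over all levels is bounded -/
def ST_SUM : Prop :=
  ∀ (c : ℝ) (A J0 : ℕ), 0 < c → 2 ≤ c * A → 1 ≤ J0 → ∃ C : ℝ, ∀ (n : ℕ → ℕ) (t N : ℕ),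
    Antitone n → 1 ≤ t → (∀ l, N ≤ l → n l = 0) →
    ∑ i ∈ range N, (min 1 ((n i : ℝ) / t)) ^ c * (2 : ℝ) ^ (-(lab A J0 t N n i / 2)) ≤ C

/-- 2. lower bound of the partition function (real labels) -/
def ST_LOW : Prop :=
  ∃ C : ℝ, 0 < C ∧ ∀ (V R : Type) [Fintype V] [Fintype R] (a : V → Finset R) (b c l0 : ℝ) (t : ℕ)
    (e : R → ℝ) (s : V → ℝ) (T E : Finset V), 0 ≤ b → 0 ≤ c → 0 < l0 → (∀ v, #(a v) ≤ t) →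
    (∀ S, 0 ≤ e S) → (∀ v, 0 ≤ s v) → (∀ v, s v ≤ 1) →
    - (∑ S, e S) * Real.log 2 - C * b * t / l0 ^ 2 * #T ≤
      Real.log (ZZ a b c (fun S => l0 * (2 : ℝ) ^ (-(e S))) s T E)

/-- 3. the rank function: `J0` does not depend on `t` -/
def ST_RANK : Prop :=
  ∀ (b : ℝ) (A : ℕ), 0 < b → b ≤ 1 → ∃ (J0 : ℕ) (C : ℝ), 1 ≤ J0 ∧ 1 ≤ C ∧
    ∀ (V R : Type) [Fintype V] [Fintype R] (a : V → Finset R) (t : ℕ), 1 ≤ t →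
    (∀ v, #(a v) ≤ t) → ∃ (l0 : ℝ) (k : V → ℕ), Real.sqrt t ≤ l0 ∧ l0 ≤ C * Real.sqrt t ∧
      ∀ i, ∀ u ∈ EE k i,
        Happy a b c0 (1 / 100) (lamW a l0 A J0 t k i) (sw k i) (TT k i) (EE k i) u

/-- 4. domination with small tolerance for weak rows: random rounding at every scale -/
def ST_L1D : Prop :=
  ∀ b c : ℝ, 0 < b → b ≤ 1 → 0 < c → c ≤ 1 → ∃ C : ℝ, 1 ≤ C ∧
    ∀ (V R : Type) [Fintype V] [Fintype R] (a : V → Finset R) (l0 : ℝ) (lam : R → ℝ) (s : V → ℝ)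
      (T E : Finset V), Disjoint T E → 1 ≤ l0 → (∀ S, 0 < lam S) → (∀ S, lam S ≤ l0) →
      (∀ v, 0 ≤ s v) → (∀ v, s v ≤ 1) →
      (∀ y : R → ℝ, b * c / 2 * ∑ u ∈ E, ph (fn a u y) ≤
        2 * ∑ S, ps (lam S * y S) + b * ∑ v ∈ T, ph (s v * fn a v y)) →
      ∀ y : R → ℝ, ∑ u ∈ E, |fn a u y| ≤ 8 / c * ∑ v ∈ T, s v * |fn a v y| +
        C * ∑ S, min (lam S) (l0 * ((ns a T E S + 1) / l0 ^ 2) ^ (1 / 4 : ℝ)) * |y S|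

/-- 5. signing for functionals with weak rows `Wk`, from Theorem W -/
def ST_SIGNF : Prop :=
  ∀ β : ℝ, 0 < β → β ≤ 1 → ∃ η L q0 : ℝ, 0 < η ∧ η ≤ 1 ∧ 1 ≤ L ∧ 1 ≤ q0 ∧
    ∀ (V R : Type) [Fintype V] [Fintype R] (a : V → Finset R) (lam : R → ℝ) (q : V → ℝ)
      (T E : Finset V) (Wk : Finset R), Disjoint T E → (∀ S, 0 < lam S) → (∀ v, 0 ≤ q v) →
      (∀ v, q v ≤ 1) → (∀ S ∈ Wk, q0 * (ns a T E S + 1) ≤ lam S ^ 2) →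
      (∀ u ∈ E, ∀ y : R → ℝ, (fn a u y) ^ 2 ≤
        η * (∑ S, (lam S * y S) ^ 2 + ∑ v ∈ T, (q v * fn a v y) ^ 2)) →
      ∃ ξ : V → ℝ, (∀ v, ξ v = 1 ∨ ξ v = -1) ∧ ∀ y : R → ℝ, ∑ u ∈ E, ξ u * fn a u y ≤
        β * ∑ u ∈ E, |fn a u y| + L * ∑ v ∈ T, q v * |fn a v y| +
        ∑ S, (if S ∈ Wk then ((ns a T E S + 1) / lam S ^ 2) ^ (1 / 300 : ℝ) else L) *
          (lam S * |y S|)

/-- 6. one level -/
def ST_STEP : Prop :=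
  ∃ b C : ℝ, 0 < b ∧ b ≤ 1 ∧ 0 < C ∧
    ∀ (V R : Type) [Fintype V] [Fintype R] (a : V → Finset R) (l0 : ℝ) (lam : R → ℝ) (s : V → ℝ)
      (T E : Finset V), Disjoint T E → 1 ≤ l0 → (∀ S, 0 < lam S) → (∀ S, lam S ≤ l0) →
      (∀ v, 0 ≤ s v) → (∀ v, s v ≤ 1) →
      (∀ u ∈ E, Happy a b c0 (1 / 100) lam s T E u) →
      ∀ z : V → ℝ, (∀ v, |z v| ≤ 1) → ∃ x ζ : V → ℝ, (∀ v, x v = 1 ∨ x v = -1) ∧
        (∀ v, |ζ v| ≤ s v / 4) ∧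
        ∀ S, |∑ u ∈ E.filter (fun u => S ∈ a u), (x u - z u) +
          ∑ v ∈ T.filter (fun v => S ∈ a v), ζ v| ≤
            C * l0 * (min 1 ((ns a T E S + 1) / l0 ^ 2)) ^ (1 / 600 : ℝ)
              * (lam S / l0) ^ (1 / 2 : ℝ)

/-- 7. the Beck-Fiala theorem -/
def ST_BF : Prop :=
  ∃ C : ℝ, 0 < C ∧
      ∀ (n m t : ℕ) (S : Fin m → Finset (Fin n)),
        (∀ i : Fin n, (Finset.univ.filter (fun j : Fin m => i ∈ S j)).card ≤ t) →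
        ∃ χ : Fin n → ℤ, (∀ i, χ i = 1 ∨ χ i = -1) ∧
          ∀ j : Fin m, ((|∑ i ∈ S j, χ i| : ℤ) : ℝ) ≤ C * Real.sqrt (t : ℝ)

end

end Pool.Agent.Helper8.NW
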